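import Pool.Agent.Y508.ISO.Int

set_option autoImplicit false

/-!
# Project ISO (helper667), part ISOALG: the parity of the dimensions
-/

namespace Pool.Agent.Y508.ISO

open Finset Pool.Agent.W262.RK Pool.Agent.W307.RT Pool.Agent.W307.RS Pool.Agent.W307.SE
  Pool.Agent.W307.FK Pool.Agent.Y667.RP Pool.Agent.Y667.RZ Pool.Agent.Y655.RZ Pool.Agent.Y667.ISO

open NumberTheorySymbols jacobiSym

/-- the local conditions with trivial classes at two -/
def PR (i : Fin 3) (K : Bool → Bool → Bool → Bool → Prop) (v h : Bool) : Prop :=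
  if i = 0 then ∃ w g, K v w h g else if i = 1 then K v false h false else K v v h h

/-- the dual local conditions -/
def QR (i : Fin 3) (K : Bool → Bool → Bool → Bool → Prop) (w g : Bool) : Prop :=
  if i = 0 then K false w false g else if i = 1 then ∃ v h, K v w h g
    else ∃ v w' h g', K v w' h g' ∧ w = xor v w' ∧ g = xor h g'

/-- the dimensions -/
def dd (i j : Fin 3) (neg : Bool) : ℕ :=
  if i = 0 then (if j = 2 then (if neg then 1 else 0) else 2)
  else if i = 1 then (if j = 1 then (if neg then 1 else 2) else 0)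
  else (if j = 0 then (if neg then 1 else 2) else 0)

def d17 (i : Fin 3) : ℕ := if i = 0 then 1 else 0

/-- the special class -/
def cc (i : Fin 3) : Fin 3 := if i = 0 then 2 else if i = 1 then 1 else 0

instance decLR (c : Fin 3) (neg v w h g : Bool) : Decidable (LR c neg v w h g) := by
  unfold LR; infer_instance

instance decL1 (v w h g : Bool) : Decidable (L1 v w h g) := by
  unfold L1; infer_instance

instance decPR (i : Fin 3) (K : Bool → Bool → Bool → Bool → Prop)
    [∀ a b c d, Decidable (K a b c d)] (v h : Bool) : Decidable (PR i K v h) := by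
  unfold PR; infer_instance

instance decQR (i : Fin 3) (K : Bool → Bool → Bool → Bool → Prop)
    [∀ a b c d, Decidable (K a b c d)] (v h : Bool) : Decidable (QR i K v h) := by
  unfold QR; infer_instance

instance decDual (e : Bool) (P Q : Bool → Bool → Prop) [∀ a b, Decidable (P a b)]
    [∀ a b, Decidable (Q a b)] : Decidable (Dual e P Q) := by
  unfold Dual; infer_instance

lemma dual_LR : ∀ (i j : Fin 3) (neg e : Bool), Dual e (PR i (LR j neg)) (QR i (LR j neg)) := by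
  decide

lemma dual_LR' : ∀ (i j : Fin 3) (neg e : Bool), Dual e (QR i (LR j neg)) (PR i (LR j neg)) := by
  decide

lemma dual_L1 : ∀ (i : Fin 3), Dual false (PR i L1) (QR i L1) := by
  decide

lemma dual_L1' : ∀ (i : Fin 3), Dual false (QR i L1) (PR i L1) := by
  decide

lemma card_key {n : ℕ} (P : Bool × Bool → Prop) [DecidablePred P]
    (h : Fintype.card {x : Bool × Bool // P x} = n) : Nat.card {x : Bool × Bool // P x} = n := by
  rw [Nat.card_eq_fintype_card, h]

lemma card_PR' : ∀ (i j : Fin 3) (neg : Bool),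
    Fintype.card {x : Bool × Bool // PR i (LR j neg) x.1 x.2} = 2 ^ dd i j neg := by
  decide

lemma card_PR (i j : Fin 3) (neg : Bool) :
    Nat.card {x : Bool × Bool // PR i (LR j neg) x.1 x.2} = 2 ^ dd i j neg :=
  card_key _ (card_PR' i j neg)

lemma card_L1' : ∀ (i : Fin 3), Fintype.card {x : Bool × Bool // PR i L1 x.1 x.2} = 2 ^ d17 i := by
  decide

lemma card_L1 (i : Fin 3) : Nat.card {x : Bool × Bool // PR i L1 x.1 x.2} = 2 ^ d17 i :=
  card_key _ (card_L1' i)

/-- the signs of the exponents -/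
lemma sign_ne : ∀ (i j : Fin 3) (neg inE : Bool), j ≠ cc i →
    ((-1 : ℤ)) ^ (dd i j neg + 1 + (if inE then 0 else 1)) = if inE then -1 else 1 := by
  unfold dd cc; decide

lemma sign_eq : ∀ (i j : Fin 3) (neg inE : Bool), j = cc i →
    ((-1 : ℤ)) ^ (dd i j neg + 1 + (if inE then 0 else 1)) = if xor neg inE then -1 else 1 := by
  unfold dd cc; decide

section

variable {s : Fin 3 → ℕ}

lemma prod3 : ∏ j, s j = s 0 * s 1 * s 2 := Fin.prod_univ_three s

lemma cop (hs : Squarefree (∏ j, s j)) : (s 0).Coprime (s 1) ∧ (s 0).Coprime (s 2) ∧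
    (s 1).Coprime (s 2) := by
  rw [prod3] at hs
  have h1 := Nat.coprime_of_squarefree_mul hs
  have h2 : Squarefree (s 0 * s 1) := hs.of_mul_left
  exact ⟨Nat.coprime_of_squarefree_mul h2, h1.coprime_mul_right, h1.coprime_mul_left⟩

lemma sqf (hs : Squarefree (∏ j, s j)) (j : Fin 3) : Squarefree (s j) :=
  hs.squarefree_of_dvd (dvd_prod_of_mem s (mem_univ j))

lemma prod_split (hs : Squarefree (∏ j, s j)) (g : ℕ → ℤ) :
    ∏ p ∈ (∏ j, s j).primeFactors, g p = ∏ j : Fin 3, ∏ p ∈ (s j).primeFactors, g p := by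
  obtain ⟨h01, h02, h12⟩ := cop hs
  rw [prod3, Fin.prod_univ_three]
  rw [(Nat.Coprime.mul_left h02 h12).primeFactors_mul, h01.primeFactors_mul]
  rw [prod_union, prod_union]
  · exact h01.disjoint_primeFactors
  · rw [← h01.primeFactors_mul]
    exact (Nat.Coprime.mul_left h02 h12).disjoint_primeFactors

/-- a prime divides exactly one of the numbers -/
lemma uniq (hs : Squarefree (∏ j, s j)) {p : ℕ} (hp : p.Prime) {j k : Fin 3} (hj : p ∣ s j)
    (hk : p ∣ s k) : j = k := by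
  obtain ⟨h01, h02, h12⟩ := cop hs
  have hc : ∀ a b : ℕ, a.Coprime b → p ∣ a → p ∣ b → False := fun a b h ha hb =>
    Nat.not_coprime_of_dvd_of_dvd hp.one_lt ha hb h
  fin_cases j <;> fin_cases k <;>
    first
    | rfl
    | exact (hc _ _ h01 hj hk).elim
    | exact (hc _ _ h01 hk hj).elim
    | exact (hc _ _ h02 hj hk).elim
    | exact (hc _ _ h02 hk hj).elim
    | exact (hc _ _ h12 hj hk).elim
    | exact (hc _ _ h12 hk hj).elim

variable (s) in
/-- the class of a prime -/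
def cl (p : ℕ) : Fin 3 := if p ∣ s 0 then 0 else if p ∣ s 1 then 1 else 2

lemma cl_dvd {p : ℕ} (hp : p.Prime) (h : p ∣ ∏ j, s j) : p ∣ s (cl s p) := by
  unfold cl
  rw [prod3] at h
  split_ifs with h0 h1
  · exact h0
  · exact h1
  · rcases (hp.dvd_mul).1 h with h | h
    · rcases (hp.dvd_mul).1 h with h | h
      · exact absurd h h0
      · exact absurd h h1
    · exact h

lemma cl_eq (hs : Squarefree (∏ j, s j)) {p : ℕ} (hp : p.Prime) {j : Fin 3} (h : p ∣ s j) :
    cl s p = j :=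
  uniq hs hp (cl_dvd hp (h.trans (dvd_prod_of_mem s (mem_univ j)))) h

lemma LF_eq (hs : Squarefree (∏ j, s j)) (E : Finset ℕ) {p : ℕ} (hp : p.Prime)
    (h : p ∣ ∏ j, s j) : LF s E p = LR (cl s p) (decide (p ∈ E)) := by
  funext v w h' g
  apply propext
  unfold LF
  constructor
  · intro hL
    exact hL _ (cl_dvd hp h)
  · intro hL j hj
    rw [cl_eq hs hp hj] at hL
    exact hL

variable (s) in
/-- the argument of the symbol -/
def xx (j : Fin 3) : ℤ := if j = 0 then -(s 1 : ℤ) else if j = 1 then -(s 0 : ℤ) else (s 0 : ℤ)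

lemma odd_j (h : HP s) (j : Fin 3) : Odd (s j) :=
  Odd.of_dvd_nat h.odd (dvd_prod_of_mem s (mem_univ j))

lemma ndvd (h : HP s) {p : ℕ} (hp : p.Prime) {j k : Fin 3} (hjk : j ≠ k) (hj : p ∣ s j) :
    ¬ ((p : ℤ) ∣ (s k : ℤ)) := by
  intro h'
  exact hjk (uniq h.sq hp hj (Int.natCast_dvd_natCast.1 h'))

lemma xx_ndvd (h : HP s) {p : ℕ} (hp : p.Prime) {j : Fin 3} (hj : p ∣ s j) : ¬ (p : ℤ) ∣ xx s j := by
  unfold xx
  fin_cases j
  · show ¬ (p : ℤ) ∣ -(s 1 : ℤ)
    rw [dvd_neg]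
    exact ndvd h hp (by decide : (0 : Fin 3) ≠ 1) hj
  · show ¬ (p : ℤ) ∣ -(s 0 : ℤ)
    rw [dvd_neg]
    exact ndvd h hp (by decide : (1 : Fin 3) ≠ 0) hj
  · show ¬ (p : ℤ) ∣ (s 0 : ℤ)
    exact ndvd h hp (by decide : (2 : Fin 3) ≠ 0) hj

/-- the primes with negative sign -/
lemma mem_E (h : HP s) {p : ℕ} (hp : p.Prime) {j : Fin 3} (hj : p ∣ s j) :
    p ∈ sgF (s 0) (s 1) (∏ j, s j) ↔ J(xx s j | p) = -1 := by
  have hm0 : ∏ j, s j ≠ 0 := h.sq.ne_zero
  have hpm : p ∈ (∏ j, s j).primeFactors :=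
    Nat.mem_primeFactors.2 ⟨hp, hj.trans (dvd_prod_of_mem s (mem_univ j)), hm0⟩
  have hp2 : p ≠ 2 := by
    have := h.big p hp (hj.trans (dvd_prod_of_mem s (mem_univ j)))
    omega
  have hdiff : (p : ℤ) ∣ (s 0 : ℤ) - s 1 ↔ (p : ℤ) ∣ (s 2 : ℤ) := by
    rw [h.rel]
    constructor
    · intro h'
      rcases (Nat.prime_iff_prime_int.1 hp).dvd_or_dvd h' with h'' | h''
      · exfalso
        have h3 : (p : ℤ) ∣ 2 ^ 5 := by norm_num; exact h''
        have h4 := (Nat.prime_iff_prime_int.1 hp).dvd_of_dvd_pow h3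
        have h5 : p ∣ 2 := by exact_mod_cast h4
        exact hp2 ((Nat.prime_dvd_prime_iff_eq hp Nat.prime_two).1 h5)
      · exact h''
    · intro h'
      exact h'.mul_left _
  unfold sgF
  rw [mem_filter, hdiff]
  have hjZ : (p : ℤ) ∣ (s j : ℤ) := Int.natCast_dvd_natCast.2 hj
  unfold xx
  fin_cases j
  · have n1 := ndvd h hp (by decide : (0 : Fin 3) ≠ 1) hj
    have n2 := ndvd h hp (by decide : (0 : Fin 3) ≠ 2) hj
    simp only [hpm, true_and, n1, n2, false_and, or_false]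
    constructor
    · rintro ⟨_, h'⟩; exact h'
    · intro h'; exact ⟨hjZ, h'⟩
  · have n1 := ndvd h hp (by decide : (1 : Fin 3) ≠ 0) hj
    have n2 := ndvd h hp (by decide : (1 : Fin 3) ≠ 2) hj
    simp only [hpm, true_and, n1, n2, false_and, or_false, false_or]
    constructor
    · rintro ⟨_, h'⟩; exact h'
    · intro h'; exact ⟨hjZ, h'⟩
  · have n1 := ndvd h hp (by decide : (2 : Fin 3) ≠ 0) hj
    have n2 := ndvd h hp (by decide : (2 : Fin 3) ≠ 1) hj
    simp only [hpm, true_and, n1, n2, false_and, false_or]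
    constructor
    · rintro ⟨_, h'⟩; exact h'
    · intro h'; exact ⟨hjZ, h'⟩

/-- the common value of the three symbols -/
lemma jac_xx (h : HP s) (j : Fin 3) : J(xx s j | s j) = J((s 0 : ℤ) | s 2) := by
  obtain ⟨h01, h02, h12⟩ := cop h.sq
  have o0 := odd_j h 0
  have o1 := odd_j h 1
  have o2 := odd_j h 2
  have m0 : s 0 % 4 = 1 := by have := h.m0; omega
  have m1 : s 1 % 4 = 1 := by have := h.m1; omega
  have hrel := h.rel
  -- `J(s0 | s1) = J(s0 | s2)`
  have e1 : J((s 0 : ℤ) | s 1) = J((s 0 : ℤ) | s 2) := by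
    have a1 : J((s 0 : ℤ) | s 1) = J(32 * (s 2 : ℤ) | s 1) := by
      rw [jacobiSym.mod_left (s 0 : ℤ), jacobiSym.mod_left (32 * (s 2 : ℤ))]
      congr 1
      rw [← hrel]
      rw [Int.sub_emod_right]
    have a2 : J(2 | s 1) = 1 := eps_one (Or.inr (Or.inr (Or.inl rfl))) h.m1
    have a3 : J((32 : ℤ) | s 1) = 1 := by
      have : (32 : ℤ) = 2 ^ 5 := by norm_num
      rw [this, jacobiSym.pow_left, a2, one_pow]
    rw [a1, jacobiSym.mul_left, a3, one_mul]
    rw [← jacobiSym.quadratic_reciprocity_one_mod_four m1 o2]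
    rw [jacobiSym.mod_left (s 1 : ℤ), jacobiSym.mod_left (s 0 : ℤ)]
    congr 1
    have : (s 0 : ℤ) = s 1 + s 2 * 32 := by linarith
    rw [this, Int.add_mul_emod_self_left]
  have e2 : J(-(s 0 : ℤ) | s 1) = J((s 0 : ℤ) | s 1) := by
    rw [neg_eq_neg_one_mul, jacobiSym.mul_left, eps_one (Or.inr (Or.inl rfl)) h.m1, one_mul]
  have e3 : J(-(s 1 : ℤ) | s 0) = J((s 0 : ℤ) | s 1) := by
    rw [neg_eq_neg_one_mul, jacobiSym.mul_left, eps_one (Or.inr (Or.inl rfl)) h.m0, one_mul]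
    exact jacobiSym.quadratic_reciprocity_one_mod_four m1 o0
  fin_cases j
  · exact e3.trans e1
  · exact e2.trans e1
  · rfl

lemma jac_sq (h : HP s) : J((s 0 : ℤ) | s 2) * J((s 0 : ℤ) | s 2) = 1 := by
  obtain ⟨h01, h02, h12⟩ := cop h.sq
  rw [← pow_two]
  apply jacobiSym.sq_one
  rw [Int.gcd_natCast_natCast]
  exact h02

lemma jac17_2 (h : HP s) : J(17 | s 2) = -1 := by
  have hrel := h.rel
  have n0 := h.n0
  have n1 := h.n1
  have hm : (s 2 : ℤ) % 17 = 7 := by omega
  have e := jacobiSym.quadratic_reciprocity_one_mod_four (a := 17) (b := s 2) (by norm_num)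
    (odd_j h 2)
  push_cast at e
  rw [e, jacobiSym.mod_left]
  push_cast
  rw [hm]
  norm_num

lemma jac17_1 (h : HP s) : J(17 | s 1) = 1 := by
  have n1 := h.n1
  have hm : (s 1 : ℤ) % 17 = 15 := by omega
  have e := jacobiSym.quadratic_reciprocity_one_mod_four (a := 17) (b := s 1) (by norm_num)
    (odd_j h 1)
  push_cast at e
  rw [e, jacobiSym.mod_left]
  push_cast
  rw [hm]
  norm_num

lemma jac17_0 (h : HP s) : J(17 | s 0) = 1 := by
  have n0 := h.n0
  have hm : (s 0 : ℤ) % 17 = 1 := by omega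
  have e := jacobiSym.quadratic_reciprocity_one_mod_four (a := 17) (b := s 0) (by norm_num)
    (odd_j h 0)
  push_cast at e
  rw [e, jacobiSym.mod_left]
  push_cast
  rw [hm]
  norm_num

lemma jac17_c (h : HP s) (i : Fin 3) : (-1 : ℤ) ^ d17 i * J(17 | s (cc i)) = 1 := by
  fin_cases i
  · show (-1 : ℤ) ^ 1 * J(17 | s 2) = 1
    rw [jac17_2 h]; norm_num
  · show (-1 : ℤ) ^ 0 * J(17 | s 1) = 1
    rw [jac17_1 h]; norm_num
  · show (-1 : ℤ) ^ 0 * J(17 | s 0) = 1
    rw [jac17_0 h]; norm_num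

/-- the product of the signs -/
lemma prod_sign (h : HP s) (i : Fin 3) (neg : ℕ → Bool) (y : Fin 3 → ℤ)
    (hy : ∀ p : ℕ, p.Prime → p ∣ s (cc i) → (if xor (neg p)
      (decide (p ∈ sgF (s 0) (s 1) (∏ j, s j))) then (-1 : ℤ) else 1) = J(y (cc i) | p)) :
    ∏ p ∈ (∏ j, s j).primeFactors, (-1 : ℤ) ^ (dd i (cl s p) (neg p) + 1 +
      (if p ∈ sgF (s 0) (s 1) (∏ j, s j) then 0 else 1)) = J(y (cc i) | s (cc i)) := by
  set E := sgF (s 0) (s 1) (∏ j, s j) with hE
  rw [prod_split h.sq]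
  have hne : ∀ j : Fin 3, j ≠ cc i → ∏ p ∈ (s j).primeFactors, (-1 : ℤ) ^ (dd i (cl s p) (neg p) +
      1 + (if p ∈ E then 0 else 1)) = J((s 0 : ℤ) | s 2) := by
    intro j hj
    rw [← jac_xx h j, ← jac_sqf (sqf h.sq j)]
    refine prod_congr rfl fun p hp => ?_
    have hp' := Nat.prime_of_mem_primeFactors hp
    have hpd := Nat.dvd_of_mem_primeFactors hp
    rw [cl_eq h.sq hp' hpd]
    have h1 := sign_ne i j (neg p) (decide (p ∈ E)) hj
    simp only [decide_eq_true_eq] at h1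
    rw [h1]
    rcases jac_pm hp' (xx_ndvd h hp' hpd) with h2 | h2
    · rw [h2, if_neg]
      rw [hE, mem_E h hp' hpd, h2]; norm_num
    · rw [h2, if_pos]
      rw [hE, mem_E h hp' hpd, h2]
  have heq : ∏ p ∈ (s (cc i)).primeFactors, (-1 : ℤ) ^ (dd i (cl s p) (neg p) +
      1 + (if p ∈ E then 0 else 1)) = J(y (cc i) | s (cc i)) := by
    rw [← jac_sqf (sqf h.sq (cc i))]
    refine prod_congr rfl fun p hp => ?_
    have hp' := Nat.prime_of_mem_primeFactors hp
    have hpd := Nat.dvd_of_mem_primeFactors hp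
    rw [cl_eq h.sq hp' hpd]
    have h1 := sign_eq i (cc i) (neg p) (decide (p ∈ E)) rfl
    rw [← hy p hp' hpd, ← h1]
    simp only [decide_eq_true_eq]
  rw [← Finset.mul_prod_erase univ _ (mem_univ (cc i)), heq]
  have hcard : ((univ : Finset (Fin 3)).erase (cc i)).card = 2 := by
    rw [card_erase_of_mem (mem_univ _)]; rfl
  rw [prod_congr rfl fun j hj => hne j (mem_erase.1 hj).1, prod_const, hcard, pow_two, jac_sq h,
    mul_one]

lemma card_sdiff_sum (m : ℕ) (E : Finset ℕ) :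
    (m.primeFactors \ E).card = ∑ p ∈ m.primeFactors, (if p ∈ E then 0 else 1) := by
  rw [card_eq_sum_ones, Finset.sum_ite, sum_const_zero, zero_add]
  congr 1
  ext p
  simp [mem_sdiff, mem_filter]

theorem core0 (h : HP s) (i : Fin 3) : ∃ f1 f2 : ℕ,
    (GB (∏ j, s j) (fun p => PR i (LF s (sgF (s 0) (s 1) (∏ j, s j)) p))).ncard = 2 ^ f1 ∧
    (GA (∏ j, s j) (fun p => QR i (LF s (sgF (s 0) (s 1) (∏ j, s j)) p))).ncard = 2 ^ f2 ∧
    Even (f1 + f2 + ((∏ j, s j).primeFactors \ sgF (s 0) (s 1) (∏ j, s j)).card + 0) := by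
  set m := ∏ j, s j with hm
  set E := sgF (s 0) (s 1) m with hE
  have hLp : ∀ p ∈ m.primeFactors, LF s E p = LR (cl s p) (decide (p ∈ E)) := fun p hp =>
    LF_eq h.sq E (Nat.prime_of_mem_primeFactors hp) (Nat.dvd_of_mem_primeFactors hp)
  obtain ⟨f1, f2, h1, h2, h3⟩ := gwZ m h.sq h.odd (fun p => PR i (LF s E p))
    (fun p => QR i (LF s E p))
    (fun p hp => by
      show Dual _ (PR i (LF s E p)) (QR i (LF s E p))
      rw [hLp p hp]; exact dual_LR i _ _ _)
    (fun p hp => by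
      show Dual _ (QR i (LF s E p)) (PR i (LF s E p))
      rw [hLp p hp]; exact dual_LR' i _ _ _)
    (fun p => dd i (cl s p) (decide (p ∈ E)))
    (fun p hp => by
      show Nat.card {x : Bool × Bool // PR i (LF s E p) x.1 x.2} = _
      rw [hLp p hp]; exact card_PR i _ _)
  refine ⟨f1, f2, h1, h2, ?_⟩
  have hsg := prod_sign h i (fun p => decide (p ∈ E)) (fun _ => 1) (fun p hp hpd => by
    rw [← hm, ← hE, Bool.xor_self, jacobiSym.one_left]
    rfl)
  rw [← hm, ← hE, jacobiSym.one_left, prod_pow_eq_pow_sum] at hsg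
  have hev : Even (∑ p ∈ m.primeFactors, (dd i (cl s p) (decide (p ∈ E)) + 1 +
      (if p ∈ E then 0 else 1))) := (neg_one_pow_eq_one_iff_even (by norm_num)).1 hsg
  rw [sum_add_distrib, sum_add_distrib, ← card_sdiff_sum, sum_const, smul_eq_mul, mul_one] at hev
  obtain ⟨k, hk⟩ := hev
  rw [Nat.even_iff]
  omega

theorem core1 (h : HP s) (i : Fin 3) : ∃ f1 f2 : ℕ,
    (GB (17 * ∏ j, s j) (fun p => PR i (L17 s (sgF (s 0) (s 1) (∏ j, s j)) p))).ncard = 2 ^ f1 ∧
    (GA (17 * ∏ j, s j) (fun p => QR i (L17 s (sgF (s 0) (s 1) (∏ j, s j)) p))).ncard = 2 ^ f2 ∧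
    Even (f1 + f2 + ((∏ j, s j).primeFactors \ sgF (s 0) (s 1) (∏ j, s j)).card + 1) := by
  have p17 : Nat.Prime 17 := by norm_num
  have h17 : ¬ 17 ∣ ∏ j, s j := fun hd => lt_irrefl 17 (h.big 17 p17 hd)
  set m := ∏ j, s j with hm
  set E := sgF (s 0) (s 1) m with hE
  have hcop : Nat.Coprime 17 m := (Nat.Prime.coprime_iff_not_dvd p17).2 h17
  have hsq : Squarefree (17 * m) := by
    rw [Nat.squarefree_mul hcop]
    exact ⟨p17.prime.irreducible.squarefree, h.sq⟩
  have hodd : Odd (17 * m) := by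
    rw [Nat.odd_mul]
    exact ⟨by decide, h.odd⟩
  have hpf : (17 * m).primeFactors = insert 17 m.primeFactors := by
    rw [hcop.primeFactors_mul, p17.primeFactors]
    rfl
  have h17' : 17 ∉ m.primeFactors := fun hd => h17 (Nat.dvd_of_mem_primeFactors hd)
  have hL17 : L17 s E 17 = L1 := by
    funext v w h' g
    unfold L17
    rw [if_pos rfl]
    rfl
  have he17 : sg0 17 (-1) = false := by
    unfold sg0
    rw [decide_eq_false_iff_not]
    norm_num
  have hLp : ∀ p ∈ m.primeFactors, L17 s E p = LR (cl s p) (decide (p ∈ tw m E)) := by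
    intro p hp
    have hne : p ≠ 17 := by
      rintro rfl
      exact h17' hp
    have h1 : L17 s E p = LF s (tw m E) p := by
      funext v w h' g
      unfold L17
      rw [if_neg hne]
    rw [h1]
    exact LF_eq h.sq (tw m E) (Nat.prime_of_mem_primeFactors hp) (Nat.dvd_of_mem_primeFactors hp)
  have hcases : ∀ p ∈ (17 * m).primeFactors, p = 17 ∨ p ∈ m.primeFactors := by
    intro p hp
    rw [hpf, mem_insert] at hp
    exact hp
  have hne17 : ∀ p ∈ m.primeFactors, p ≠ 17 := by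
    rintro p hp rfl
    exact h17' hp
  obtain ⟨f1, f2, h1, h2, h3⟩ := gwZ (17 * m) hsq hodd (fun p => PR i (L17 s E p))
    (fun p => QR i (L17 s E p))
    (fun p hp => by
      show Dual _ (PR i (L17 s E p)) (QR i (L17 s E p))
      rcases hcases p hp with rfl | hp'
      · rw [hL17, he17]; exact dual_L1 i
      · rw [hLp p hp']; exact dual_LR i _ _ _)
    (fun p hp => by
      show Dual _ (QR i (L17 s E p)) (PR i (L17 s E p))
      rcases hcases p hp with rfl | hp'
      · rw [hL17, he17]; exact dual_L1' i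
      · rw [hLp p hp']; exact dual_LR' i _ _ _)
    (fun p => if p = 17 then d17 i else dd i (cl s p) (decide (p ∈ tw m E)))
    (fun p hp => by
      show Nat.card {x : Bool × Bool // PR i (L17 s E p) x.1 x.2} = _
      rcases hcases p hp with rfl | hp'
      · rw [hL17]; simp only [if_true]; exact card_L1 i
      · rw [hLp p hp', if_neg (hne17 p hp')]; exact card_PR i _ _)
  refine ⟨f1, f2, h1, h2, ?_⟩
  have hsg := prod_sign h i (fun p => decide (p ∈ tw m E)) (fun _ => 17) (fun p hp hpd => by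
    rw [← hm, ← hE]
    have hpm : p ∣ m := hpd.trans (dvd_prod_of_mem s (mem_univ _))
    have hpf' : p ∈ m.primeFactors := Nat.mem_primeFactors.2 ⟨hp, hpm, h.sq.ne_zero⟩
    have hn : ¬ (p : ℤ) ∣ 17 := by
      intro hd
      have : p ∣ 17 := by exact_mod_cast hd
      exact hne17 p hpf' ((Nat.prime_dvd_prime_iff_eq hp p17).1 this)
    have htw : p ∈ tw m E ↔ ¬ (p ∈ E ↔ J(17 | p) = -1) := by
      unfold tw
      rw [mem_filter]
      exact and_iff_right hpf'
    rcases jac_pm hp hn with hj | hj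
    · rw [hj] at htw ⊢
      have h5 : ¬ ((1 : ℤ) = -1) := by norm_num
      by_cases hpE : p ∈ E
      · have : p ∈ tw m E := by rw [htw]; simp [hpE, h5]
        simp [this, hpE]
      · have : p ∉ tw m E := by rw [htw]; simp [hpE, h5]
        simp [this, hpE]
    · rw [hj] at htw ⊢
      by_cases hpE : p ∈ E
      · have : p ∉ tw m E := by rw [htw]; simp [hpE]
        simp [this, hpE]
      · have : p ∈ tw m E := by rw [htw]; simp [hpE]
        simp [this, hpE])
  rw [← hm, ← hE, prod_pow_eq_pow_sum] at hsg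
  have hcc := jac17_c h i
  rw [← hsg, ← pow_add] at hcc
  have hev := (neg_one_pow_eq_one_iff_even (by norm_num : (-1 : ℤ) ≠ 1)).1 hcc
  rw [sum_add_distrib, sum_add_distrib, ← card_sdiff_sum, sum_const, smul_eq_mul, mul_one] at hev
  rw [hpf, card_insert_of_notMem h17', sum_insert h17', if_pos rfl] at h3
  have h4 : ∑ p ∈ m.primeFactors, (if p = 17 then d17 i else dd i (cl s p)
      (decide (p ∈ tw m E))) = ∑ p ∈ m.primeFactors, dd i (cl s p) (decide (p ∈ tw m E)) :=
    sum_congr rfl fun p hp => if_neg (hne17 p hp)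
  rw [h4] at h3
  obtain ⟨k, hk⟩ := hev
  rw [Nat.even_iff]
  omega

end

/-- **ISOALG** -/
theorem ISOALG : St_ISOALG := by
  intro s h D M L hD
  rcases hD with ⟨rfl, rfl, rfl⟩ | ⟨rfl, rfl, rfl⟩
  · obtain ⟨a0, b0, c0, d0, e0⟩ := core0 h 0
    obtain ⟨a1, b1, c1, d1, e1⟩ := core0 h 1
    obtain ⟨a2, b2, c2, d2, e2⟩ := core0 h 2
    refine ⟨⟨a0, b0, c0, d0, e0⟩, ⟨b1, a1, d1, c1, ?_⟩, ⟨b2, a2, d2, c2, ?_⟩⟩
    · rw [add_comm b1 a1]; exact e1
    · rw [add_comm b2 a2]; exact e2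
  · obtain ⟨a0, b0, c0, d0, e0⟩ := core1 h 0
    obtain ⟨a1, b1, c1, d1, e1⟩ := core1 h 1
    obtain ⟨a2, b2, c2, d2, e2⟩ := core1 h 2
    refine ⟨⟨a0, b0, c0, d0, e0⟩, ⟨b1, a1, d1, c1, ?_⟩, ⟨b2, a2, d2, c2, ?_⟩⟩
    · rw [add_comm b1 a1]; exact e1
    · rw [add_comm b2 a2]; exact e2

end Pool.Agent.Y508.ISO
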