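import Pool.Agent.Y508.ISO.Lin
import Pool.Agent.Y667.ISO.Stm

set_option autoImplicit false

/-!
# Project ISO (helper667), part ISOALG: the classes as integers
-/

namespace Pool.Agent.Y508.ISO

open Finset Pool.Agent.W262.RK Pool.Agent.W307.RT Pool.Agent.W307.RS Pool.Agent.W307.SE
  Pool.Agent.W307.FK Pool.Agent.Y667.RP Pool.Agent.Y667.RZ Pool.Agent.Y655.RZ Pool.Agent.Y667.ISO

open NumberTheorySymbols jacobiSym

/-- the symbol, additively -/
def cs (p : ℕ) (x : ℤ) : ZMod 2 := b2z (sg0 p x)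

lemma zz_cases (x : ZMod 2) : x = 0 ∨ x = 1 := by revert x; decide

lemma jac_pm {p : ℕ} (hp : p.Prime) {x : ℤ} (hx : ¬ (p : ℤ) ∣ x) : J(x | p) = 1 ∨ J(x | p) = -1 := by
  have h1 : x.gcd p = 1 := by
    rw [Int.gcd_comm, ← Int.isCoprime_iff_gcd_eq_one]
    exact ((Nat.prime_iff_prime_int.1 hp).coprime_iff_not_dvd).2 hx
  exact jacobiSym.eq_one_or_neg_one h1

lemma cs_zero_iff {p : ℕ} (hp : p.Prime) {x : ℤ} (hx : ¬ (p : ℤ) ∣ x) : cs p x = 0 ↔ J(x | p) = 1 := by
  unfold cs sg0
  rcases jac_pm hp hx with h | h <;> rw [h] <;> decide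

lemma cs_mul {p : ℕ} (hp : p.Prime) {x y : ℤ} (hx : ¬ (p : ℤ) ∣ x) (hy : ¬ (p : ℤ) ∣ y) :
    cs p (x * y) = cs p x + cs p y := by
  unfold cs sg0
  rw [jacobiSym.mul_left]
  rcases jac_pm hp hx with h | h <;> rcases jac_pm hp hy with h' | h' <;> rw [h, h'] <;> decide

lemma cs_one {p : ℕ} : cs p 1 = 0 := by
  unfold cs sg0
  rw [jacobiSym.one_left]
  decide

lemma cs_prod {p : ℕ} (hp : p.Prime) {ι : Type} (s : Finset ι) (f : ι → ℤ)
    (hf : ∀ i ∈ s, ¬ (p : ℤ) ∣ f i) : cs p (∏ i ∈ s, f i) = ∑ i ∈ s, cs p (f i) := by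
  classical
  have hpp := Nat.prime_iff_prime_int.1 hp
  induction s using Finset.induction_on with
  | empty => rw [prod_empty, sum_empty, cs_one]
  | insert a s ha ih =>
    rw [prod_insert ha, sum_insert ha, cs_mul hp (hf a (mem_insert_self a s)) ?_,
      ih fun i hi => hf i (mem_insert_of_mem hi)]
    intro h
    obtain ⟨i, hi, h'⟩ := (hpp.dvd_finset_prod_iff _).1 h
    exact hf i (mem_insert_of_mem hi) h'

variable (M : ℕ)

/-- the index type -/
abbrev II : Type := {p : ℕ // p ∈ M.primeFactors}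

def eM (p : II M) : ZMod 2 := cs p (-1)

def tM (p : II M) : ZMod 2 := cs p 2

def rM (q p : II M) : ZMod 2 := if q = p then 0 else cs p (q : ℕ)

/-- the unit part -/
def un (s t : ZMod 2) : ℤ := (if s = 1 then -1 else 1) * (if t = 1 then 2 else 1)

/-- the odd part -/
def uu (v : II M → ZMod 2) : ℕ := ∏ p : II M, if v p = 1 then (p : ℕ) else 1

/-- the integer with the given components -/
def par (γ : GG (II M)) : ℤ := un γ.2.1 γ.2.2 * (uu M γ.1 : ℤ)

/-- the components of an integer -/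
def dcl (y : ℤ) : GG (II M) := (fun p => b2z (dv p y), b2z (decide (y < 0)), b2z (dv 2 y))

/-- the squarefree integers supported on `2 M` -/
def GT : Set ℤ := {x | Squarefree x ∧ (∀ q : ℕ, q.Prime → (q : ℤ) ∣ x → q ∣ 2 * M)}

variable {M}

lemma II_prime (p : II M) : (p : ℕ).Prime := Nat.prime_of_mem_primeFactors p.2

lemma II_dvd (p : II M) : (p : ℕ) ∣ M := Nat.dvd_of_mem_primeFactors p.2

lemma II_ne_two (hMo : Odd M) (p : II M) : (p : ℕ) ≠ 2 := by
  intro h
  have h1 := II_dvd p
  rw [h] at h1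
  exact (Nat.not_even_iff_odd.2 hMo) (even_iff_two_dvd.2 h1)

lemma uu_dvd (hM : Squarefree M) (v : II M → ZMod 2) : uu M v ∣ M := by
  have h1 : ∏ p : II M, (p : ℕ) = M := by
    rw [Finset.prod_coe_sort M.primeFactors (fun p => p)]
    exact Nat.prod_primeFactors_of_squarefree hM
  conv_rhs => rw [← h1]
  unfold uu
  apply prod_dvd_prod_of_dvd
  intro p _
  split_ifs
  · exact dvd_rfl
  · exact one_dvd _

lemma uu_odd (hM : Squarefree M) (hMo : Odd M) (v : II M → ZMod 2) : Odd (uu M v) :=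
  Odd.of_dvd_nat hMo (uu_dvd hM v)

lemma uu_pos (v : II M → ZMod 2) : 0 < uu M v := by
  unfold uu
  apply prod_pos
  intro p _
  split_ifs
  · exact (II_prime p).pos
  · exact one_pos

lemma dvd_uu (v : II M → ZMod 2) (p : II M) : (p : ℕ) ∣ uu M v ↔ v p = 1 := by
  unfold uu
  rw [(II_prime p).prime.dvd_finset_prod_iff]
  constructor
  · rintro ⟨q, _, h⟩
    split_ifs at h with hq
    · have h1 := (Nat.prime_dvd_prime_iff_eq (II_prime p) (II_prime q)).1 h
      have h2 : p = q := Subtype.ext h1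
      rw [h2]; exact hq
    · exact absurd (Nat.dvd_one.1 h) (II_prime p).one_lt.ne'
  · intro h
    exact ⟨p, mem_univ _, by rw [if_pos h]⟩

lemma un_cases (s t : ZMod 2) : un s t = 1 ∨ un s t = -1 ∨ un s t = 2 ∨ un s t = -2 := by
  revert s t
  unfold un
  decide

lemma un_prime_dvd {s t : ZMod 2} {q : ℕ} (hq : q.Prime) (h : (q : ℤ) ∣ un s t) : q = 2 := by
  have h5 : (q : ℤ) ∣ 2 := by
    rcases un_cases s t with h1 | h1 | h1 | h1 <;> rw [h1] at h
    · exact h.trans (by norm_num)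
    · exact h.trans (by norm_num)
    · exact h
    · exact h.trans (by norm_num)
  have h6 : q ∣ 2 := by exact_mod_cast h5
  exact (Nat.prime_dvd_prime_iff_eq hq Nat.prime_two).1 h6

lemma par_mem (hM : Squarefree M) (hMo : Odd M) (γ : GG (II M)) : par M γ ∈ GT M := by
  have hg : Squarefree (uu M γ.1) := hM.squarefree_of_dvd (uu_dvd hM γ.1)
  have ho := uu_odd hM hMo γ.1
  constructor
  · unfold par
    rw [← Int.squarefree_natAbs, Int.natAbs_mul, Int.natAbs_natCast]
    rcases un_cases γ.2.1 γ.2.2 with h | h | h | h <;> rw [h]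
    · simpa using hg
    · simpa using hg
    · show Squarefree (2 * uu M γ.1)
      rw [Nat.squarefree_mul ((Nat.coprime_two_left).2 ho)]
      exact ⟨Nat.prime_two.prime.irreducible.squarefree, hg⟩
    · show Squarefree (2 * uu M γ.1)
      rw [Nat.squarefree_mul ((Nat.coprime_two_left).2 ho)]
      exact ⟨Nat.prime_two.prime.irreducible.squarefree, hg⟩
  · intro q hq h
    unfold par at h
    rcases (Nat.prime_iff_prime_int.1 hq).dvd_or_dvd h with h | h
    · rw [un_prime_dvd hq h]; exact dvd_mul_right 2 M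
    · exact ((Int.natCast_dvd_natCast.1 h).trans (uu_dvd hM γ.1)).mul_left _

lemma dvd_par (hMo : Odd M) (γ : GG (II M)) (p : II M) : ((p : ℕ) : ℤ) ∣ par M γ ↔ γ.1 p = 1 := by
  rw [← dvd_uu γ.1 p, ← Int.natCast_dvd_natCast]
  unfold par
  constructor
  · intro h
    rcases (Nat.prime_iff_prime_int.1 (II_prime p)).dvd_or_dvd h with h | h
    · exact absurd (un_prime_dvd (II_prime p) h) (II_ne_two hMo p)
    · exact h
  · intro h
    exact h.mul_left _

lemma b2z_decide (x : ZMod 2) : b2z (decide (x = 1)) = x := by revert x; decide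

lemma dcl_par (hM : Squarefree M) (hMo : Odd M) (γ : GG (II M)) : dcl M (par M γ) = γ := by
  have hu := uu_pos γ.1
  have ho := uu_odd hM hMo γ.1
  refine Prod.ext ?_ (Prod.ext ?_ ?_)
  · funext p
    show b2z (dv p (par M γ)) = γ.1 p
    unfold dv
    rw [decide_eq_decide.2 (dvd_par hMo γ p), b2z_decide]
  · show b2z (decide (par M γ < 0)) = γ.2.1
    have h1 : par M γ < 0 ↔ γ.2.1 = 1 := by
      unfold par un
      have hu' : (0 : ℤ) < uu M γ.1 := by exact_mod_cast hu
      by_cases hs : γ.2.1 = 1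
      · simp only [hs, if_true, iff_true]
        by_cases ht : γ.2.2 = 1
        · rw [if_pos ht]; linarith
        · rw [if_neg ht]; linarith
      · simp only [hs, if_false, iff_false, not_lt]
        by_cases ht : γ.2.2 = 1
        · rw [if_pos ht]; linarith
        · rw [if_neg ht]; linarith
    rw [decide_eq_decide.2 h1, b2z_decide]
  · show b2z (dv 2 (par M γ)) = γ.2.2
    have h1 : ((2 : ℕ) : ℤ) ∣ par M γ ↔ γ.2.2 = 1 := by
      have ho' : ¬ (2 : ℤ) ∣ (uu M γ.1 : ℤ) := by
        intro h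
        have : 2 ∣ uu M γ.1 := by exact_mod_cast h
        exact (Nat.not_even_iff_odd.2 ho) (even_iff_two_dvd.2 this)
      unfold par
      constructor
      · intro h
        rcases (Nat.prime_iff_prime_int.1 Nat.prime_two).dvd_or_dvd h with h | h
        · by_contra hne
          unfold un at h
          rw [if_neg hne, mul_one] at h
          split_ifs at h <;> revert h <;> decide
        · exact absurd h ho'
      · intro h
        unfold un
        rw [if_pos h]
        exact ((dvd_mul_left (2 : ℤ) _)).mul_right _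
    unfold dv
    rw [decide_eq_decide.2 h1, b2z_decide]

lemma dcl_inj (hM0 : M ≠ 0) {y y' : ℤ} (hy : y ∈ GT M) (hy' : y' ∈ GT M) (h : dcl M y = dcl M y') :
    y = y' := by
  obtain ⟨h1, h2⟩ := hy
  obtain ⟨k1, k2⟩ := hy'
  have e1 : ∀ q : ℕ, q.Prime → q ∣ 2 * M → ((q : ℤ) ∣ y ↔ (q : ℤ) ∣ y') := by
    intro q hq hqM
    have hb : dv q y = dv q y' := by
      rcases (hq.dvd_mul).1 hqM with h3 | h3
      · have h4 := (Nat.prime_dvd_prime_iff_eq hq Nat.prime_two).1 h3
        subst h4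
        exact b2z_inj _ _ (congrArg (fun γ : GG (II M) => γ.2.2) h)
      · have h4 := congrFun (congrArg Prod.fst h) ⟨q, Nat.mem_primeFactors.2 ⟨hq, h3, hM0⟩⟩
        exact b2z_inj _ _ h4
    unfold dv at hb
    exact decide_eq_decide.1 hb
  have s1 : Squarefree y.natAbs := Int.squarefree_natAbs.2 h1
  have s2 : Squarefree y'.natAbs := Int.squarefree_natAbs.2 k1
  have e2 : y.natAbs = y'.natAbs := by
    have e3 : y.natAbs.primeFactors = y'.natAbs.primeFactors := by
      ext q
      rw [Nat.mem_primeFactors, Nat.mem_primeFactors]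
      constructor
      · rintro ⟨a, b, c⟩
        have b' : (q : ℤ) ∣ y := Int.natCast_dvd.2 b
        exact ⟨a, Int.natCast_dvd.1 ((e1 q a (h2 q a b')).1 b'), s2.ne_zero⟩
      · rintro ⟨a, b, c⟩
        have b' : (q : ℤ) ∣ y' := Int.natCast_dvd.2 b
        exact ⟨a, Int.natCast_dvd.1 ((e1 q a (k2 q a b')).2 b'), s1.ne_zero⟩
    rw [← Nat.prod_primeFactors_of_squarefree s1, ← Nat.prod_primeFactors_of_squarefree s2, e3]
  have e4 : (y < 0 ↔ y' < 0) := by
    have h3 : b2z (decide (y < 0)) = b2z (decide (y' < 0)) :=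
      congrArg (fun γ : GG (II M) => γ.2.1) h
    exact decide_eq_decide.1 (b2z_inj _ _ h3)
  omega

lemma par_dcl (hM : Squarefree M) (hMo : Odd M) {y : ℤ} (hy : y ∈ GT M) : par M (dcl M y) = y :=
  dcl_inj hM.ne_zero (par_mem hM hMo _) hy (dcl_par hM hMo _)

/-- the symbols of the integer with the given components -/
lemma sgn_par (hM : Squarefree M) (hMo : Odd M) (γ : GG (II M)) (p : II M) :
    b2z (sgn p (par M γ)) =
      γ.2.1 * eM M p + γ.2.2 * tM M p + ∑ q, γ.1 q * rM M q p := by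
  classical
  have hp := II_prime p
  have hpp := Nat.prime_iff_prime_int.1 hp
  -- the part prime to `p`
  set w : ℕ := ∏ q : II M, if γ.1 q = 1 ∧ q ≠ p then (q : ℕ) else 1 with hw
  have hfac : ∀ q : II M, ¬ ((p : ℕ) : ℤ) ∣ ((if γ.1 q = 1 ∧ q ≠ p then (q : ℕ) else 1 : ℕ) : ℤ) := by
    intro q h
    have h' := Int.natCast_dvd_natCast.1 h
    split_ifs at h' with hq
    · have h1 := (Nat.prime_dvd_prime_iff_eq hp (II_prime q)).1 h'
      exact hq.2 (Subtype.ext h1).symm
    · exact absurd (Nat.dvd_one.1 h') hp.one_lt.ne'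
  have hpw : ¬ ((p : ℕ) : ℤ) ∣ (w : ℤ) := by
    rw [hw]
    push_cast [Nat.cast_prod]
    intro h
    obtain ⟨q, _, h'⟩ := (hpp.dvd_finset_prod_iff _).1 h
    apply hfac q
    push_cast
    exact h'
  have huw : uu M γ.1 = (if γ.1 p = 1 then (p : ℕ) else 1) * w := by
    unfold uu
    rw [hw, ← Finset.mul_prod_erase univ _ (mem_univ p), ← Finset.mul_prod_erase univ
      (fun q : II M => if γ.1 q = 1 ∧ q ≠ p then (q : ℕ) else 1) (mem_univ p)]
    rw [if_neg (show ¬ (γ.1 p = 1 ∧ p ≠ p) from fun h => h.2 rfl), one_mul]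
    congr 1
    refine prod_congr rfl fun q hq => ?_
    have : q ≠ p := (mem_erase.1 hq).1
    simp only [this, ne_eq, not_false_eq_true, and_true]
  have hpun : ¬ ((p : ℕ) : ℤ) ∣ un γ.2.1 γ.2.2 := fun h =>
    II_ne_two hMo p (un_prime_dvd hp h)
  -- the symbol is that of `un * w`
  have hsgn : b2z (sgn p (par M γ)) = cs p (un γ.2.1 γ.2.2 * w) := by
    unfold cs
    by_cases hv : γ.1 p = 1
    · rw [if_pos hv] at huw
      have hd : ((p : ℕ) : ℤ) ∣ par M γ := (dvd_par hMo γ p).2 hv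
      rw [sgn_dvd hd]
      congr 2
      unfold par
      rw [huw]
      push_cast
      have hp0 : ((p : ℕ) : ℤ) ≠ 0 := by exact_mod_cast hp.ne_zero
      rw [show un γ.2.1 γ.2.2 * (((p : ℕ) : ℤ) * (w : ℤ)) =
        ((p : ℕ) : ℤ) * (un γ.2.1 γ.2.2 * w) by ring]
      exact Int.mul_ediv_cancel_left _ hp0
    · rw [if_neg hv, one_mul] at huw
      have hd : ¬ ((p : ℕ) : ℤ) ∣ par M γ := fun h => hv ((dvd_par hMo γ p).1 h)
      rw [sgn_ndvd hp hd]
      unfold par
      rw [huw]
  rw [hsgn, cs_mul hp hpun hpw]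
  congr 1
  · unfold un eM tM
    have h2 : ¬ ((p : ℕ) : ℤ) ∣ 2 := by
      intro h
      have : (p : ℕ) ∣ 2 := by exact_mod_cast h
      exact II_ne_two hMo p ((Nat.prime_dvd_prime_iff_eq hp Nat.prime_two).1 this)
    have h1 : ¬ ((p : ℕ) : ℤ) ∣ -1 := by
      intro h
      have h' : ((p : ℕ) : ℤ) ∣ 1 := (dvd_neg).1 h
      have : (p : ℕ) ∣ 1 := by exact_mod_cast h'
      exact absurd (Nat.dvd_one.1 this) hp.one_lt.ne'
    rcases zz_cases γ.2.1 with hs | hs <;> rcases zz_cases γ.2.2 with ht | ht <;> rw [hs, ht]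
    · simp [cs_one]
    · simp
    · simp
    · rw [if_pos rfl, if_pos rfl, cs_mul hp h1 h2, one_mul, one_mul]
  · rw [hw, Nat.cast_prod, cs_prod hp _ _ fun q _ => hfac q]
    refine sum_congr rfl fun q _ => ?_
    unfold rM
    by_cases hqp : q = p
    · rw [if_pos hqp, if_neg (fun h => h.2 hqp), mul_zero, Nat.cast_one, cs_one]
    · rw [if_neg hqp]
      rcases zz_cases (γ.1 q) with hv | hv
      · rw [hv, if_neg (fun h => by simp at h), zero_mul, Nat.cast_one, cs_one]
      · rw [hv, if_pos ⟨rfl, hqp⟩, one_mul]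

/-- the local components are those of the integer -/
lemma Ph_par (hM : Squarefree M) (hMo : Odd M) (γ : GG (II M)) (p : II M) :
    Ph (eM M) (tM M) (rM M) γ p = (b2z (dv p (par M γ)), b2z (sgn p (par M γ))) := by
  rw [Ph_apply, sgn_par hM hMo]
  refine Prod.ext ?_ rfl
  show γ.1 p = b2z (dv p (par M γ))
  unfold dv
  rw [decide_eq_decide.2 (dvd_par hMo γ p), b2z_decide]

/-- quadratic reciprocity -/
lemma recip (hMo : Odd M) (p q : II M) (hpq : p ≠ q) :
    rM M p q + rM M q p = eM M p * eM M q := by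
  have hp := II_prime p
  have hq := II_prime q
  have hp2 := II_ne_two hMo p
  have hq2 := II_ne_two hMo q
  have hpo : Odd (p : ℕ) := hp.odd_of_ne_two hp2
  have hqo : Odd (q : ℕ) := hq.odd_of_ne_two hq2
  have hne : (p : ℕ) ≠ (q : ℕ) := fun h => hpq (Subtype.ext h)
  have hpq' : ¬ ((p : ℕ) : ℤ) ∣ ((q : ℕ) : ℤ) := by
    intro h
    exact hne ((Nat.prime_dvd_prime_iff_eq hp hq).1 (Int.natCast_dvd_natCast.1 h))
  have hqp' : ¬ ((q : ℕ) : ℤ) ∣ ((p : ℕ) : ℤ) := by
    intro h
    exact hne.symm ((Nat.prime_dvd_prime_iff_eq hq hp).1 (Int.natCast_dvd_natCast.1 h))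
  unfold rM eM
  rw [if_neg hpq, if_neg (Ne.symm hpq)]
  have r1 : J((p : ℕ) | q) = qrSign q p * J((q : ℕ) | p) := quadratic_reciprocity' hpo hqo
  unfold qrSign at r1
  have c1 : (p : ℕ) % 4 = 1 ∨ (p : ℕ) % 4 = 3 := by have := Nat.odd_iff.1 hpo; omega
  have c2 : (q : ℕ) % 4 = 1 ∨ (q : ℕ) % 4 = 3 := by have := Nat.odd_iff.1 hqo; omega
  have j1 := jac_pm hp hpq'
  unfold cs sg0
  rcases c2 with c2 | c2
  · rw [ZMod.χ₄_nat_one_mod_four c2, jacobiSym.one_left, one_mul] at r1
    rw [r1, jacobiSym.at_neg_one hqo, ZMod.χ₄_nat_one_mod_four c2]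
    have : b2z (decide ((1 : ℤ) = -1)) = 0 := by decide
    rw [this, mul_zero]
    have hdd : ∀ x : ZMod 2, x + x = 0 := by decide
    exact hdd _
  · rw [ZMod.χ₄_nat_three_mod_four c2, jacobiSym.at_neg_one hpo] at r1
    rw [jacobiSym.at_neg_one hqo, ZMod.χ₄_nat_three_mod_four c2, jacobiSym.at_neg_one hpo]
    rcases c1 with c1 | c1
    · rw [ZMod.χ₄_nat_one_mod_four c1, one_mul] at r1
      rw [r1, ZMod.χ₄_nat_one_mod_four c1]
      have : b2z (decide ((1 : ℤ) = -1)) = 0 := by decide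
      rw [this, zero_mul]
      have hdd : ∀ x : ZMod 2, x + x = 0 := by decide
      exact hdd _
    · rw [ZMod.χ₄_nat_three_mod_four c1] at r1
      rw [r1, ZMod.χ₄_nat_three_mod_four c1]
      rcases j1 with h | h <;> rw [h] <;> decide

/-- the submodule of a local condition -/
def SQ (P : Bool → Bool → Prop) (h0 : P false false)
    (hadd : ∀ a b a' b', P a b → P a' b' → P (xor a a') (xor b b')) : Submodule (ZMod 2) YY where
  carrier := {x | P (z2b x.1) (z2b x.2)}
  zero_mem' := h0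
  add_mem' := by
    intro x y hx hy
    have := hadd _ _ _ _ hx hy
    simp only [← z2b_add] at this
    exact this
  smul_mem' := by
    intro t x hx
    rcases zz_cases t with rfl | rfl
    · rw [zero_smul]; exact h0
    · rw [one_smul]; exact hx

/-- the two local conditions are orthogonal complements -/
def Dual (e : Bool) (P Q : Bool → Bool → Prop) : Prop :=
  ∀ v h, P v h ↔ ∀ w g, Q w g → xor (v && g) (xor (w && h) (v && (w && e))) = false

lemma Dual.zero {e : Bool} {P Q : Bool → Bool → Prop} (h : Dual e P Q) : P false false := by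
  rw [h]
  intro w g _
  simp

lemma Dual.add {e : Bool} {P Q : Bool → Bool → Prop} (h : Dual e P Q) (a b a' b' : Bool)
    (h1 : P a b) (h2 : P a' b') : P (xor a a') (xor b b') := by
  rw [h] at h1 h2 ⊢
  intro w g hQ
  have k1 := h1 w g hQ
  have k2 := h2 w g hQ
  clear h1 h2 hQ h
  revert k1 k2
  revert a b a' b' w g e
  decide

lemma bt_bool (e v h w g : Bool) : bt (b2z e) (b2z v, b2z h) (b2z w, b2z g) =
    b2z (xor (v && g) (xor (w && h) (v && (w && e)))) := by
  revert e v h w g; decide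

variable (M) in
/-- **Greenberg-Wiles** for the integers. -/
theorem gwZ (hM : Squarefree M) (hMo : Odd M) (P Q : ℕ → Bool → Bool → Prop)
    (hPQ : ∀ p ∈ M.primeFactors, Dual (sg0 p (-1)) (P p) (Q p))
    (hQP : ∀ p ∈ M.primeFactors, Dual (sg0 p (-1)) (Q p) (P p)) (d : ℕ → ℕ)
    (hd : ∀ p ∈ M.primeFactors, Nat.card {x : Bool × Bool // P p x.1 x.2} = 2 ^ d p) :
    ∃ f1 f2 : ℕ, (GB M P).ncard = 2 ^ f1 ∧ (GA M Q).ncard = 2 ^ f2 ∧
      f1 + (M.primeFactors.card + 2) = f2 + ∑ p ∈ M.primeFactors, d p := by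
  classical
  set PS : II M → Submodule (ZMod 2) YY := fun p => SQ (P p) (hPQ p p.2).zero (hPQ p p.2).add
    with hPS
  set QS : II M → Submodule (ZMod 2) YY := fun p => SQ (Q p) (hQP p p.2).zero (hQP p p.2).add
    with hQS
  have hloc : ∀ (p : II M) (x : YY), x ∈ PS p ↔ ∀ y ∈ QS p, bt (eM M p) y x = 0 := by
    intro p x
    have h1 := hPQ p p.2
    show P p (z2b x.1) (z2b x.2) ↔ _
    rw [h1]
    have hb : ∀ b : Bool, b2z b = 0 ↔ b = false := by decide
    constructor
    · intro h y hy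
      have h2 := h (z2b y.1) (z2b y.2) hy
      rw [bt_comm]
      have h3 := bt_bool (sg0 p (-1)) (z2b x.1) (z2b x.2) (z2b y.1) (z2b y.2)
      rw [b2z_z2b, b2z_z2b, b2z_z2b, b2z_z2b, h2] at h3
      exact h3
    · intro h w g hQ
      have h2 := h (b2z w, b2z g) (by
        show Q p (z2b (b2z w)) (z2b (b2z g))
        rwa [z2b_b2z, z2b_b2z])
      rw [bt_comm] at h2
      have h3 := bt_bool (sg0 p (-1)) (z2b x.1) (z2b x.2) w g
      rw [b2z_z2b, b2z_z2b] at h3
      have h4 : b2z (xor (z2b x.1 && g) (xor (w && z2b x.2) (z2b x.1 && (w && sg0 p (-1))))) = 0 := by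
        rw [← h3]; exact h2
      exact (hb _).1 h4
  have key := gw (eM M) (tM M) (rM M) (fun p => by unfold rM; rw [if_pos rfl])
    (fun p q hpq => recip hMo p q hpq) PS QS hloc
  set F := Ph (eM M) (tM M) (rM M) with hF
  -- the second group
  have hmem : ∀ (R : ℕ → Bool → Bool → Prop) (γ : GG (II M)), par M γ ∈ GA M R ↔
      ∀ p : II M, R p (z2b (F γ p).1) (z2b (F γ p).2) := by
    intro R γ
    have h1 := par_mem hM hMo γ
    constructor
    · rintro ⟨_, _, h4⟩ p
      rw [hF, Ph_par hM hMo, z2b_b2z, z2b_b2z]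
      exact h4 p p.2
    · intro h
      refine ⟨h1.1, h1.2, fun p hp => ?_⟩
      have h2 := h ⟨p, hp⟩
      rw [hF, Ph_par hM hMo, z2b_b2z, z2b_b2z] at h2
      exact h2
  have hinj : Function.Injective (par M) := fun γ γ' h => by
    rw [← dcl_par hM hMo γ, ← dcl_par hM hMo γ', h]
  have hQim : GA M Q = par M '' ((Hat QS).comap F : Submodule (ZMod 2) (GG (II M))) := by
    ext y
    constructor
    · intro hy
      have hy' : y ∈ GT M := ⟨hy.1, hy.2.1⟩
      refine ⟨dcl M y, ?_, par_dcl hM hMo hy'⟩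
      rw [← par_dcl hM hMo hy', hmem] at hy
      exact hy
    · rintro ⟨γ, hγ, rfl⟩
      rw [hmem]
      exact hγ
  -- the first group
  have hodd8 : ∀ n : ℕ, Odd n → (n % 8 = 1 ↔ J(-1 | n) = 1 ∧ J(2 | n) = 1) := by
    intro n hn
    rw [jacobiSym.at_neg_one hn, jacobiSym.at_two hn, ← ZMod.natCast_mod n 4,
      ← ZMod.natCast_mod n 8]
    have h1 := Nat.odd_iff.1 hn
    have h2 : n % 8 = 1 ∨ n % 8 = 3 ∨ n % 8 = 5 ∨ n % 8 = 7 := by omega
    rcases h2 with h | h | h | h
    · have h4 : n % 4 = 1 := by omega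
      rw [h, h4]; decide
    · have h4 : n % 4 = 3 := by omega
      rw [h, h4]; decide
    · have h4 : n % 4 = 1 := by omega
      rw [h, h4]; decide
    · have h4 : n % 4 = 3 := by omega
      rw [h, h4]; decide
  have hsum : ∀ (x : ℤ) (v : II M → ZMod 2), (∀ p : II M, ¬ ((p : ℕ) : ℤ) ∣ x) →
      (∑ p : II M, v p * cs p x = 0 ↔ J(x | uu M v) = 1) := by
    intro x v hx
    have h1 : ∀ s : Finset (II M), J(x | ∏ p ∈ s, if v p = 1 then (p : ℕ) else 1) =
        ∏ p ∈ s, (if v p = 1 then J(x | (p : ℕ)) else 1) := by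
      intro s
      induction s using Finset.induction_on with
      | empty => simp
      | insert a s ha ih =>
        rw [prod_insert ha, prod_insert ha, jacobiSym.mul_right' x ?_ ?_, ih]
        · congr 1
          split_ifs
          · rfl
          · exact jacobiSym.one_right x
        · split_ifs
          · exact (II_prime a).ne_zero
          · exact one_ne_zero
        · apply prod_ne_zero_iff.2
          intro p _
          split_ifs
          · exact (II_prime p).ne_zero
          · exact one_ne_zero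
    have h2 : ∀ s : Finset (II M), (∑ p ∈ s, v p * cs p x = 0 ∧
        ∏ p ∈ s, (if v p = 1 then J(x | (p : ℕ)) else 1) = 1) ∨ (∑ p ∈ s, v p * cs p x = 1 ∧
        ∏ p ∈ s, (if v p = 1 then J(x | (p : ℕ)) else 1) = -1) := by
      intro s
      induction s using Finset.induction_on with
      | empty => left; simp
      | insert a s ha ih =>
        rw [sum_insert ha, prod_insert ha]
        have h3 : (v a * cs a x = 0 ∧ (if v a = 1 then J(x | (a : ℕ)) else 1) = 1) ∨
            (v a * cs a x = 1 ∧ (if v a = 1 then J(x | (a : ℕ)) else 1) = -1) := by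
          rcases zz_cases (v a) with hv | hv
          · left; rw [hv]; simp
          · rw [hv, if_pos rfl, one_mul]
            unfold cs sg0
            rcases jac_pm (II_prime a) (hx a) with h | h <;> rw [h]
            · left; decide
            · right; decide
        rcases h3 with ⟨a1, a2⟩ | ⟨a1, a2⟩ <;> rcases ih with ⟨b1, b2⟩ | ⟨b1, b2⟩ <;>
          rw [a1, a2, b1, b2]
        · left; decide
        · right; decide
        · right; decide
        · left; decide
    unfold uu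
    rw [h1 univ]
    rcases h2 univ with ⟨a, b⟩ | ⟨a, b⟩ <;> rw [a, b] <;> decide
  have hP1 : GB M P = par M '' (G1 (eM M) (tM M) ⊓ (Hat PS).comap F :
      Submodule (ZMod 2) (GG (II M))) := by
    have hn1 : ∀ p : II M, ¬ ((p : ℕ) : ℤ) ∣ -1 := by
      intro p h
      have h' : ((p : ℕ) : ℤ) ∣ 1 := (dvd_neg).1 h
      have : (p : ℕ) ∣ 1 := by exact_mod_cast h'
      exact absurd (Nat.dvd_one.1 this) (II_prime p).one_lt.ne'
    have hn2 : ∀ p : II M, ¬ ((p : ℕ) : ℤ) ∣ 2 := by
      intro p h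
      have : (p : ℕ) ∣ 2 := by exact_mod_cast h
      exact II_ne_two hMo p ((Nat.prime_dvd_prime_iff_eq (II_prime p) Nat.prime_two).1 this)
    have hiff : ∀ γ : GG (II M), (0 < par M γ ∧ par M γ % 8 = 1) ↔ γ ∈ G1 (eM M) (tM M) := by
      intro γ
      rw [mem_G1]
      have hu := uu_pos γ.1
      have ho := uu_odd hM hMo γ.1
      have hu' : (0 : ℤ) < uu M γ.1 := by exact_mod_cast hu
      have e1 : ∑ p, γ.1 p * eM M p = 0 ↔ J(-1 | uu M γ.1) = 1 := hsum (-1) γ.1 hn1
      have e2 : ∑ p, γ.1 p * tM M p = 0 ↔ J(2 | uu M γ.1) = 1 := hsum 2 γ.1 hn2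
      rw [e1, e2, ← hodd8 _ ho]
      unfold par un
      constructor
      · rintro ⟨h1, h2⟩
        have hs : γ.2.1 = 0 := by
          rcases zz_cases γ.2.1 with h | h
          · exact h
          · rw [h, if_pos rfl] at h1
            exfalso
            rcases zz_cases γ.2.2 with h' | h' <;> rw [h'] at h1 <;> simp at h1 <;> omega
        have ht : γ.2.2 = 0 := by
          rcases zz_cases γ.2.2 with h | h
          · exact h
          · rw [h, hs] at h2
            exfalso
            simp at h2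
            omega
        refine ⟨Prod.ext hs ht, ?_⟩
        rw [hs, ht] at h2
        simp at h2
        omega
      · rintro ⟨h1, h2⟩
        have hs : γ.2.1 = 0 := by rw [h1]; rfl
        have ht : γ.2.2 = 0 := by rw [h1]; rfl
        rw [hs, ht]
        simp
        omega
    ext y
    constructor
    · rintro ⟨hy, hy0, hy8⟩
      have hy' : y ∈ GT M := ⟨hy.1, hy.2.1⟩
      have hpy := par_dcl hM hMo hy'
      refine ⟨dcl M y, ⟨?_, ?_⟩, hpy⟩
      · rw [← hpy] at hy0 hy8
        exact (hiff _).1 ⟨hy0, hy8⟩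
      · rw [← hpy, hmem] at hy
        exact hy
    · rintro ⟨γ, ⟨h1, h2⟩, rfl⟩
      exact ⟨(hmem P γ).2 h2, ((hiff γ).2 h1).1, ((hiff γ).2 h1).2⟩
  -- cardinalities
  have hcard : ∀ C : Submodule (ZMod 2) (GG (II M)), (par M '' (C : Set (GG (II M)))).ncard =
      2 ^ Module.finrank (ZMod 2) C := by
    intro C
    rw [Set.ncard_image_of_injective _ hinj, ← Nat.card_coe_set_eq]
    have h1 := Module.natCard_eq_pow_finrank (K := ZMod 2) (V := C)
    rw [Nat.card_zmod] at h1
    exact h1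
  refine ⟨_, _, by rw [hP1, hcard], by rw [hQim, hcard], ?_⟩
  have hcP : Module.finrank (ZMod 2) (Hat PS) = ∑ p ∈ M.primeFactors, d p := by
    have h1 := Module.natCard_eq_pow_finrank (K := ZMod 2) (V := Hat PS)
    rw [Nat.card_zmod, card_Hat] at h1
    have h2 : ∀ p : II M, Nat.card (PS p) = 2 ^ d p := by
      intro p
      rw [← hd p p.2]
      refine Nat.card_congr ⟨fun x => ⟨(z2b x.1.1, z2b x.1.2), x.2⟩,
        fun x => ⟨(b2z x.1.1, b2z x.1.2), ?_⟩, ?_, ?_⟩
      · show P p (z2b (b2z x.1.1)) (z2b (b2z x.1.2))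
        rw [z2b_b2z, z2b_b2z]; exact x.2
      · rintro ⟨⟨a, b⟩, h⟩
        apply Subtype.ext
        simp only [b2z_z2b]
      · rintro ⟨⟨a, b⟩, h⟩
        apply Subtype.ext
        simp only [z2b_b2z]
    rw [prod_congr rfl fun p _ => h2 p, prod_pow_eq_pow_sum,
      Finset.sum_coe_sort M.primeFactors d] at h1
    exact (Nat.pow_right_injective (le_refl 2) h1).symm
  rw [hcP, Fintype.card_coe] at key
  omega

end Pool.Agent.Y508.ISO
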