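import Mathlib

set_option autoImplicit false

/-!
# Project ISO (helper667), part ISOALG: linear algebra

A form of the Greenberg-Wiles formula over the field with two elements.
-/

namespace Pool.Agent.Y508.ISO

open Finset

/-- the local space -/
abbrev YY : Type := ZMod 2 × ZMod 2

/-- the local pairing -/
def bt (e : ZMod 2) (x y : YY) : ZMod 2 := x.1 * y.2 + y.1 * x.2 + x.1 * y.1 * e

lemma bt_comm (e : ZMod 2) (x y : YY) : bt e x y = bt e y x := by
  unfold bt; ring

lemma bt_add_left (e : ZMod 2) (x x' y : YY) : bt e (x + x') y = bt e x y + bt e x' y := by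
  unfold bt
  simp only [Prod.fst_add, Prod.snd_add]
  ring

lemma bt_smul_left (e t : ZMod 2) (x y : YY) : bt e (t • x) y = t * bt e x y := by
  unfold bt
  simp only [Prod.smul_fst, Prod.smul_snd, smul_eq_mul]
  ring

lemma bt_zero_right (e : ZMod 2) (x : YY) : bt e x 0 = 0 := by
  unfold bt; simp

lemma bt_nondeg : ∀ (e : ZMod 2) (x : YY), (∀ y, bt e x y = 0) → x = 0 := by decide

variable {ι : Type} [Fintype ι] [DecidableEq ι]

/-- the global pairing -/
noncomputable def BW (e : ι → ZMod 2) : LinearMap.BilinForm (ZMod 2) (ι → YY) :=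
  LinearMap.mk₂ (ZMod 2) (fun x y => ∑ p, bt (e p) (x p) (y p))
    (fun x x' y => by simp only [Pi.add_apply, bt_add_left, sum_add_distrib])
    (fun t x y => by simp only [Pi.smul_apply, bt_smul_left, smul_eq_mul, mul_sum])
    (fun x y y' => by
      simp only [Pi.add_apply, bt_comm _ _ (_ + _), bt_add_left, sum_add_distrib]
      simp only [bt_comm])
    (fun t x y => by
      simp only [Pi.smul_apply, bt_comm _ _ (_ • _), bt_smul_left, smul_eq_mul, mul_sum]
      simp only [bt_comm])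

omit [DecidableEq ι] in
lemma BW_apply (e : ι → ZMod 2) (x y : ι → YY) : BW e x y = ∑ p, bt (e p) (x p) (y p) := rfl

lemma BW_single (e : ι → ZMod 2) (x : ι → YY) (p : ι) (y : YY) :
    BW e x (Pi.single p y) = bt (e p) (x p) y := by
  rw [BW_apply, sum_eq_single p]
  · rw [Pi.single_eq_same]
  · intro q _ hq
    rw [Pi.single_eq_of_ne hq, bt_zero_right]
  · intro h
    exact absurd (mem_univ _) h

omit [DecidableEq ι] in
lemma BW_comm (e : ι → ZMod 2) (x y : ι → YY) : BW e x y = BW e y x := by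
  rw [BW_apply, BW_apply]
  exact sum_congr rfl fun p _ => bt_comm _ _ _

lemma BW_nondeg (e : ι → ZMod 2) : (BW e).Nondegenerate := by
  have h : ∀ x, (∀ y, BW e x y = 0) → x = 0 := by
    intro x h
    funext p
    apply bt_nondeg (e p)
    intro y
    have h1 := h (Pi.single p y)
    rwa [BW_single] at h1
  constructor
  · intro x hx
    exact h x hx
  · intro x hx
    apply h x
    intro y
    rw [BW_comm]
    exact hx y

/-- the subspace of local conditions -/
def Hat (P : ι → Submodule (ZMod 2) YY) : Submodule (ZMod 2) (ι → YY) where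
  carrier := {x | ∀ p, x p ∈ P p}
  zero_mem' := fun p => Submodule.zero_mem _
  add_mem' := fun {x y} hx hy p => Submodule.add_mem _ (hx p) (hy p)
  smul_mem' := fun t x hx p => Submodule.smul_mem _ t (hx p)

lemma card_Hat (P : ι → Submodule (ZMod 2) YY) : Nat.card (Hat P) = ∏ p, Nat.card (P p) := by
  have h1 : Nat.card (Hat P) = Nat.card (∀ p, P p) :=
    Nat.card_congr (Equiv.subtypePiEquivPi (β := fun _ : ι => YY) (p := fun {p} x => x ∈ P p))
  rw [h1, Nat.card_pi]

/-- the global classes: exponents, sign, exponent of two -/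
abbrev GG (ι : Type) : Type := (ι → ZMod 2) × ZMod 2 × ZMod 2

/-- the local components of the global classes -/
def Ph (e τ : ι → ZMod 2) (ρ : ι → ι → ZMod 2) : GG ι →ₗ[ZMod 2] (ι → YY) where
  toFun γ p := (γ.1 p, γ.2.1 * e p + γ.2.2 * τ p + ∑ q, γ.1 q * ρ q p)
  map_add' γ γ' := by
    funext p
    refine Prod.ext rfl ?_
    simp only [Pi.add_apply, Prod.fst_add, Prod.snd_add, add_mul, sum_add_distrib]
    ring
  map_smul' t γ := by
    funext p
    refine Prod.ext rfl ?_
    simp only [Pi.smul_apply, Prod.smul_fst, Prod.smul_snd, smul_eq_mul, RingHom.id_apply,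
      mul_add, mul_sum]
    congr 1
    · ring
    · exact sum_congr rfl fun q _ => by ring

omit [DecidableEq ι] in
lemma Ph_apply (e τ : ι → ZMod 2) (ρ : ι → ι → ZMod 2) (γ : GG ι) (p : ι) :
    Ph e τ ρ γ p = (γ.1 p, γ.2.1 * e p + γ.2.2 * τ p + ∑ q, γ.1 q * ρ q p) := rfl

/-- the classes which are trivial at two and at infinity -/
def G1 (e τ : ι → ZMod 2) : Submodule (ZMod 2) (GG ι) where
  carrier := {γ | γ.2 = 0 ∧ ∑ p, γ.1 p * e p = 0 ∧ ∑ p, γ.1 p * τ p = 0}
  zero_mem' := by simp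
  add_mem' := by
    rintro γ γ' ⟨h1, h2, h3⟩ ⟨k1, k2, k3⟩
    refine ⟨?_, ?_, ?_⟩
    · rw [Prod.snd_add, h1, k1, add_zero]
    · simp only [Prod.fst_add, Pi.add_apply, add_mul, sum_add_distrib, h2, k2, add_zero]
    · simp only [Prod.fst_add, Pi.add_apply, add_mul, sum_add_distrib, h3, k3, add_zero]
  smul_mem' := by
    rintro t γ ⟨h1, h2, h3⟩
    refine ⟨?_, ?_, ?_⟩
    · rw [Prod.smul_snd, h1, smul_zero]
    · simp only [Prod.smul_fst, Pi.smul_apply, smul_eq_mul, mul_assoc, ← mul_sum, h2, mul_zero]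
    · simp only [Prod.smul_fst, Pi.smul_apply, smul_eq_mul, mul_assoc, ← mul_sum, h3, mul_zero]

omit [DecidableEq ι] in
lemma mem_G1 (e τ : ι → ZMod 2) (γ : GG ι) :
    γ ∈ G1 e τ ↔ γ.2 = 0 ∧ ∑ p, γ.1 p * e p = 0 ∧ ∑ p, γ.1 p * τ p = 0 := Iff.rfl

/-- the product formula -/
lemma prodf (e τ : ι → ZMod 2) (ρ : ι → ι → ZMod 2) (hρ0 : ∀ p, ρ p p = 0)
    (hρ : ∀ p q, p ≠ q → ρ p q + ρ q p = e p * e q) (γ1 γ : GG ι) (h1 : γ1 ∈ G1 e τ) :
    BW e (Ph e τ ρ γ1) (Ph e τ ρ γ) = 0 := by
  obtain ⟨h2, h3, h4⟩ := h1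
  have hs1 : γ1.2.1 = 0 := by rw [h2]; rfl
  have hs2 : γ1.2.2 = 0 := by rw [h2]; rfl
  have hsq : ∀ x : ZMod 2, x * x = x := by decide
  have hdd : ∀ x : ZMod 2, x + x = 0 := by decide
  have hkey : ∀ p q, ρ q p + ρ p q + (if p = q then e p else 0) = e p * e q := by
    intro p q
    by_cases h : p = q
    · subst h
      rw [hρ0, if_pos rfl, hsq]; simp
    · rw [if_neg h, add_zero, add_comm, hρ p q h]
  rw [BW_apply]
  have hpt : ∀ p, bt (e p) (Ph e τ ρ γ1 p) (Ph e τ ρ γ p) =
      γ.2.1 * (γ1.1 p * e p) + γ.2.2 * (γ1.1 p * τ p) + (∑ q, γ1.1 p * γ.1 q * ρ q p +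
        ∑ q, γ1.1 q * γ.1 p * ρ q p + γ1.1 p * γ.1 p * e p) := by
    intro p
    rw [Ph_apply, Ph_apply, hs1, hs2]
    unfold bt
    simp only [mul_add, mul_sum]
    have e1 : ∑ q, γ1.1 p * (γ.1 q * ρ q p) = ∑ q, γ1.1 p * γ.1 q * ρ q p :=
      sum_congr rfl fun q _ => by ring
    have e2 : ∑ q, γ.1 p * (γ1.1 q * ρ q p) = ∑ q, γ1.1 q * γ.1 p * ρ q p :=
      sum_congr rfl fun q _ => by ring
    rw [e1, e2]
    ring
  rw [sum_congr rfl fun p _ => hpt p]
  rw [sum_add_distrib, sum_add_distrib, ← mul_sum, ← mul_sum, h3, h4, mul_zero, mul_zero, zero_add,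
    zero_add, sum_add_distrib, sum_add_distrib]
  rw [sum_comm (f := fun p q => γ1.1 q * γ.1 p * ρ q p)]
  have e3 : ∑ p, γ1.1 p * γ.1 p * e p = ∑ p, ∑ q, γ1.1 p * γ.1 q * (if p = q then e p else 0) := by
    refine sum_congr rfl fun p _ => ?_
    rw [sum_eq_single p]
    · rw [if_pos rfl]
    · intro q _ hq
      rw [if_neg (Ne.symm hq), mul_zero]
    · intro h
      exact absurd (mem_univ _) h
  rw [e3, ← sum_add_distrib, ← sum_add_distrib]
  have e4 : ∀ p, (∑ q, γ1.1 p * γ.1 q * ρ q p + ∑ q, γ1.1 p * γ.1 q * ρ p q +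
      ∑ q, γ1.1 p * γ.1 q * (if p = q then e p else 0)) = (γ1.1 p * e p) * ∑ q, γ.1 q * e q := by
    intro p
    rw [← sum_add_distrib, ← sum_add_distrib, mul_sum]
    refine sum_congr rfl fun q _ => ?_
    rw [← mul_add, ← mul_add, hkey]
    ring
  rw [sum_congr rfl fun p _ => e4 p, ← sum_mul, h3, zero_mul]

/-- the classes trivial at two and infinity are the orthogonal complement of all the classes -/
lemma orth (e τ : ι → ZMod 2) (ρ : ι → ι → ZMod 2) (hρ0 : ∀ p, ρ p p = 0)
    (hρ : ∀ p q, p ≠ q → ρ p q + ρ q p = e p * e q) :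
    (BW e).orthogonal (LinearMap.range (Ph e τ ρ)) = (G1 e τ).map (Ph e τ ρ) := by
  apply le_antisymm
  · intro w hw
    rw [LinearMap.BilinForm.mem_orthogonal_iff] at hw
    have hw' : ∀ γ, BW e (Ph e τ ρ γ) w = 0 := fun γ => hw _ ⟨γ, rfl⟩
    have t1 := hw' (0, 1, 0)
    have t2 := hw' (0, 0, 1)
    rw [BW_apply] at t1 t2
    have s1 : ∑ p, (w p).1 * e p = 0 := by
      rw [← t1]
      refine sum_congr rfl fun p _ => ?_
      rw [Ph_apply]; unfold bt; simp
    have s2 : ∑ p, (w p).1 * τ p = 0 := by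
      rw [← t2]
      refine sum_congr rfl fun p _ => ?_
      rw [Ph_apply]; unfold bt; simp
    have hmem : ((fun p => (w p).1, 0) : GG ι) ∈ G1 e τ := ⟨rfl, s1, s2⟩
    refine ⟨(fun p => (w p).1, 0), hmem, ?_⟩
    -- the difference
    have hd : ∀ q, (w q).2 = (Ph e τ ρ (fun p => (w p).1, 0) q).2 := by
      intro q
      have h1 := prodf e τ ρ hρ0 hρ _ ((Pi.single q 1, 0) : GG ι) hmem
      have h2 := hw' (Pi.single q 1, 0)
      rw [BW_comm] at h1
      have h3 : BW e (Ph e τ ρ (Pi.single q 1, 0)) (w - Ph e τ ρ (fun p => (w p).1, 0)) = 0 := by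
        rw [map_sub, h1, h2, sub_zero]
      rw [BW_apply, sum_eq_single q] at h3
      · rw [Pi.sub_apply, Ph_apply, Ph_apply] at h3
        unfold bt at h3
        simp only [Pi.single_eq_same, Prod.fst_sub, Prod.snd_sub, sub_self, zero_mul, one_mul,
          mul_zero, add_zero] at h3
        rw [sub_eq_zero] at h3
        rw [h3, Ph_apply]
      · intro p _ hp
        rw [Pi.sub_apply, Ph_apply, Ph_apply]
        unfold bt
        simp only [Pi.single_eq_of_ne hp, Prod.fst_sub, sub_self, zero_mul, mul_zero, add_zero]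
      · intro h
        exact absurd (mem_univ _) h
    funext q
    exact Prod.ext rfl (hd q).symm
  · rintro _ ⟨γ1, h1, rfl⟩
    rw [LinearMap.BilinForm.mem_orthogonal_iff]
    rintro _ ⟨γ, rfl⟩
    change BW e _ _ = 0
    rw [BW_comm]
    exact prodf e τ ρ hρ0 hρ _ _ h1

lemma finrank_W : Module.finrank (ZMod 2) (ι → YY) = 2 * Fintype.card ι := by
  rw [Module.finrank_pi_fintype]
  have h : Module.finrank (ZMod 2) YY = 2 := by
    unfold YY
    rw [Module.finrank_prod, Module.finrank_self]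
  simp only [h]
  rw [sum_const, card_univ, smul_eq_mul, mul_comm]

lemma finrank_GG : Module.finrank (ZMod 2) (GG ι) = Fintype.card ι + 2 := by
  unfold GG
  rw [Module.finrank_prod, Module.finrank_prod, Module.finrank_fintype_fun_eq_card,
    Module.finrank_self]

/-- the formula of Greenberg and Wiles -/
theorem gw (e τ : ι → ZMod 2) (ρ : ι → ι → ZMod 2) (hρ0 : ∀ p, ρ p p = 0)
    (hρ : ∀ p q, p ≠ q → ρ p q + ρ q p = e p * e q) (P Q : ι → Submodule (ZMod 2) YY)
    (hPQ : ∀ p x, x ∈ P p ↔ ∀ y ∈ Q p, bt (e p) y x = 0) :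
    Module.finrank (ZMod 2) (G1 e τ ⊓ (Hat P).comap (Ph e τ ρ) : Submodule (ZMod 2) (GG ι)) +
      (Fintype.card ι + 2) = Module.finrank (ZMod 2) (Hat P) +
      Module.finrank (ZMod 2) ((Hat Q).comap (Ph e τ ρ)) := by
  classical
  set F := Ph e τ ρ with hF
  set A := LinearMap.range F with hA
  -- `F` is injective on `G1`
  have hinj : Function.Injective (F.domRestrict (G1 e τ)) := by
    rw [← LinearMap.ker_eq_bot, LinearMap.ker_eq_bot']
    rintro ⟨γ, h1, h2, h3⟩ h
    apply Subtype.ext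
    have h4 : F γ = 0 := h
    refine Prod.ext ?_ h1
    funext p
    have h5 := congrFun h4 p
    rw [hF, Ph_apply] at h5
    exact congrArg Prod.fst h5
  have hinj' : ∀ γ ∈ G1 e τ, ∀ γ' ∈ G1 e τ, F γ = F γ' → γ = γ' := by
    intro γ h γ' h' he
    have : (⟨γ, h⟩ : G1 e τ) = ⟨γ', h'⟩ := hinj he
    exact congrArg Subtype.val this
  -- the left hand side
  have e1 : (G1 e τ ⊓ (Hat P).comap F).map F = (G1 e τ).map F ⊓ Hat P := by
    ext w
    constructor
    · rintro ⟨γ, ⟨h1, h2⟩, rfl⟩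
      exact ⟨⟨γ, h1, rfl⟩, h2⟩
    · rintro ⟨⟨γ, h1, rfl⟩, h2⟩
      exact ⟨γ, ⟨h1, h2⟩, rfl⟩
  have e2 : Module.finrank (ZMod 2) (G1 e τ ⊓ (Hat P).comap F : Submodule (ZMod 2) (GG ι)) =
      Module.finrank (ZMod 2) ((G1 e τ).map F ⊓ Hat P : Submodule (ZMod 2) (ι → YY)) := by
    rw [← e1]
    set C := G1 e τ ⊓ (Hat P).comap F
    have hC : Function.Injective (F.domRestrict C) := by
      intro x y h
      apply Subtype.ext
      exact hinj' x x.2.1 y y.2.1 h
    have h6 := LinearMap.finrank_range_of_inj hC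
    rw [LinearMap.range_domRestrict] at h6
    exact h6.symm
  -- orthogonal complements
  have hH : (BW e).orthogonal (Hat Q) = Hat P := by
    ext x
    rw [LinearMap.BilinForm.mem_orthogonal_iff]
    constructor
    · intro h p
      rw [hPQ]
      intro y hy
      have h1 : BW e (Pi.single p y) x = 0 := by
        apply h
        intro q
        by_cases hq : q = p
        · subst hq; rwa [Pi.single_eq_same]
        · rw [Pi.single_eq_of_ne hq]; exact Submodule.zero_mem _
      rw [BW_comm, BW_single, bt_comm] at h1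
      exact h1
    · intro h y hy
      change BW e y x = 0
      rw [BW_apply]
      apply sum_eq_zero
      intro p _
      exact (hPQ p (x p)).1 (h p) _ (hy p)
  have hsup : (BW e).orthogonal (A ⊔ Hat Q) = (G1 e τ).map F ⊓ Hat P := by
    rw [← orth e τ ρ hρ0 hρ, ← hH]
    ext x
    simp only [Submodule.mem_inf, LinearMap.BilinForm.mem_orthogonal_iff]
    constructor
    · intro h
      exact ⟨fun n hn => h n (Submodule.mem_sup_left hn), fun n hn => h n (Submodule.mem_sup_right hn)⟩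
    · rintro ⟨h1, h2⟩ n hn
      obtain ⟨a, ha, b, hb, rfl⟩ := Submodule.mem_sup.1 hn
      change BW e (a + b) x = 0
      rw [map_add, LinearMap.add_apply]
      have g1 : BW e a x = 0 := h1 a ha
      have g2 : BW e b x = 0 := h2 b hb
      rw [g1, g2, add_zero]
  have d1 := LinearMap.BilinForm.finrank_orthogonal (BW_nondeg e) (A ⊔ Hat Q)
  have d2 := LinearMap.BilinForm.finrank_orthogonal (BW_nondeg e) (Hat Q)
  have d3 := Submodule.finrank_sup_add_finrank_inf_eq A (Hat Q)
  have d4 := finrank_W (ι := ι)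
  have d5 := Submodule.finrank_le (A ⊔ Hat Q)
  have d6 := Submodule.finrank_le (Hat Q)
  rw [hsup] at d1
  rw [hH] at d2
  -- the classes with conditions `Q`
  have d7 := LinearMap.finrank_range_add_finrank_ker F
  have d8 := LinearMap.finrank_range_add_finrank_ker (F.domRestrict ((Hat Q).comap F))
  have e3 : LinearMap.range (F.domRestrict ((Hat Q).comap F)) = A ⊓ Hat Q := by
    rw [LinearMap.range_domRestrict, Submodule.map_comap_eq]
  have e4 : Module.finrank (ZMod 2) (LinearMap.ker (F.domRestrict ((Hat Q).comap F))) =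
      Module.finrank (ZMod 2) (LinearMap.ker F) := by
    have h1 : LinearMap.ker F ≤ (Hat Q).comap F := by
      intro x hx
      rw [LinearMap.mem_ker] at hx
      rw [Submodule.mem_comap, hx]
      exact Submodule.zero_mem _
    have h2 : LinearMap.ker (F.domRestrict ((Hat Q).comap F)) =
        (LinearMap.ker F).comap ((Hat Q).comap F).subtype := by
      rw [LinearMap.domRestrict, LinearMap.ker_comp]
    rw [h2]
    exact LinearEquiv.finrank_eq (Submodule.comapSubtypeEquivOfLe h1)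
  rw [e3, e4] at d8
  have d9 := finrank_GG (ι := ι)
  rw [d9] at d7
  rw [e2]
  change _ + _ = Module.finrank (ZMod 2) (LinearMap.range F) + _ at d3
  omega

end Pool.Agent.Y508.ISO
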